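import Pool.Agent.H5.PolyAmb

set_option autoImplicit false

namespace Pool.Agent.Results.MP_745574_co.StrongNotWeak

open Pool.Agent.H5.PolyDefs

theorem result : ∃ P P' : Set (EuclideanSpace ℝ (Fin 4)),
    IsPolytope 4 P ∧ IsPolytope 4 P' ∧ IsEmpty (Face P ≃o Face P') ∧
    Nonempty (Skel 1 P ≃o Skel 1 P') ∧
    ∀ (m : ℕ) (Q : Set (EuclideanSpace ℝ (Fin m))), IsPolytope 4 Q →
      Nonempty (Skel 1 Q ≃o Skel 1 P) → ∀ σ : Skel 1 Q ≃o Skel 1 Q,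
        ∃ τ : Face Q ≃o Face Q, ∀ F : Skel 1 Q, (τ ⟨F.1, F.2.1⟩).1 = (σ F).1 :=
  ⟨_, _, H5.PolyAmb.poly1, H5.PolyAmb.poly2, H5.PolyAmb.not_equiv, H5.PolyAmb.skel_equiv,
    fun _ _ _ ⟨e⟩ σ => ⟨OrderIso.refl _, fun F => by rw [H5.PolyAmb.self_trivial e σ F]; rfl⟩⟩

end Pool.Agent.Results.MP_745574_co.StrongNotWeak
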